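import Pool.Agent.TH694.M3.Final

/-!
# A polynomial-time approximation scheme for planar Euclidean minimum three-dimensional matching

`NPC.PolyTime f`: the function `f` on bit strings is computed by a Turing machine in polynomial time
(Mathlib's `Turing.TM2ComputableInPolyTime`).  `NPC.bits`: the standard code of structured data as a
bit string; numbers are written in binary, a rational number as numerator and denominator.

Outline of the proof.  In an optimal partition only `O_ε(1)` triples that touch a disc of radius `L`
have perimeter at least `ε L` (otherwise three of them can be exchanged).  Choose a random shift of a
dyadic hierarchy of cells in which every cell is split into two halves.  A triple is short if it is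
split by the splitting line of a cell that is much longer than its perimeter.  The short triples
split by one line are collected in groups, one for each of `O_ε(1)` equal segments of the line, and
the points of every group are regrouped into consecutive triples in the order of the space-filling
Z-curve.  In expectation this costs only `ε` times the optimum, and afterwards every cell of every
level is crossed by `O_ε(1)` triples.  So a nearly optimal partition is found by dynamic programming
over the cells, for all shifts and for all guesses of the longest edge (after rounding the points to
a grid of polynomial size).
-/

namespace Pool.Agent.Results.MP_8a0a8e_lc.PlanarPTAS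

open Pool.Agent.NPC

/-- A point of the plane with rational coordinates. -/
abbrev Point := ℚ × ℚ

/-- A triangle, given by its three corners. -/
abbrev Triangle := Point × Point × Point

/-- The three corners of a triangle. -/
def corners (t : Triangle) : List Point := [t.1, t.2.1, t.2.2]

/-- The Euclidean distance of two points. -/
noncomputable def dist (p q : Point) : ℝ :=
  Real.sqrt (((p.1 : ℝ) - (q.1 : ℝ)) ^ 2 + ((p.2 : ℝ) - (q.2 : ℝ)) ^ 2)

/-- The perimeter of a triangle. -/
noncomputable def perimeter (t : Triangle) : ℝ :=
  dist t.1 t.2.1 + dist t.2.1 t.2.2 + dist t.2.2 t.1

/-- The triangles `π` form a partition of the set of the points in the list `P`: their corners,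
written one after another, are a rearrangement of `P`. -/
def IsPartition (P : List Point) (π : List Triangle) : Prop := (π.flatMap corners).Perm P

/-- The total perimeter. -/
noncomputable def cost (π : List Triangle) : ℝ := (π.map perimeter).sum

/-- For every fixed `ε > 0` there is a deterministic polynomial-time algorithm `f` which, given any
set `P` of `3 n` points with rational coordinates (as a list without repetitions), outputs a
partition of `P` into `n` triangles whose total perimeter is at most `1 + ε` times the total
perimeter of every partition of `P` into triangles. -/
theorem result : ∀ ε : ℝ, 0 < ε → ∃ f : List Bool → List Bool, PolyTime f ∧
    ∀ P : List Point, P.Nodup → 3 ∣ P.length →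
      ∃ π : List Triangle, f (bits P) = bits π ∧ IsPartition P π ∧
        ∀ π' : List Triangle, IsPartition P π' → cost π ≤ (1 + ε) * cost π' :=
  fun ε hε => TH694.M3.main ε hε

end Pool.Agent.Results.MP_8a0a8e_lc.PlanarPTAS
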